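import Pool.Agent.Helper3.CL.IntDef

/-!
# CB-ell, LC form: B8
-/

set_option autoImplicit false

namespace Pool.Agent.Helper45.CL

open NumberField IsDedekindDomain Polynomial

/-- B8a: algebraic integers of bounded degree with bounded conjugates. -/
theorem fin_set (Ω : Type*) [Field Ω] [CharZero Ω] [Algebra.IsAlgebraic ℚ Ω] (D : ℕ) (B : ℝ) :
    {x : Ω | IsIntegral ℤ x ∧ (minpoly ℚ x).natDegree ≤ D ∧ ∀ ψ : Ω →+* ℂ, ‖ψ x‖ ≤ B}.Finite := by
  classical
  let C := Nat.ceil (max B 1 ^ D * D.choose (D / 2) : ℝ)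
  have := bUnion_roots_finite (algebraMap ℤ Ω) D (Set.finite_Icc (-C : ℤ) C)
  refine this.subset fun x hx => ?_
  simp_rw [Set.mem_iUnion]
  have h_map_ℚ_minpoly := minpoly.isIntegrallyClosed_eq_field_fractions' ℚ hx.1
  have hxQ : IsIntegral ℚ x := hx.1.tower_top
  refine ⟨_, ⟨?_, fun i => ?_⟩, mem_rootSet.2 ⟨minpoly.ne_zero hx.1, minpoly.aeval ℤ x⟩⟩
  · rw [← (minpoly.monic hx.1).natDegree_map (algebraMap ℤ ℚ), ← h_map_ℚ_minpoly]
    exact hx.2.1
  · rw [Set.mem_Icc, ← abs_le, ← @Int.cast_le ℝ]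
    have hb : ‖(minpoly ℚ x).coeff i‖ ≤ max B 1 ^ D * D.choose (D / 2) := by
      rw [← norm_algebraMap' ℂ, ← coeff_map (algebraMap ℚ ℂ)]
      refine coeff_bdd_of_roots_le _ (minpoly.monic hxQ) (IsAlgClosed.splits _) hx.2.1
        (fun z hz => ?_) i
      have hz2 : z ∈ (minpoly ℚ x).rootSet ℂ := by
        rw [rootSet_def, Finset.mem_coe, Multiset.mem_toFinset]
        exact hz
      rw [← Algebra.IsAlgebraic.range_eval_eq_rootSet_minpoly ℂ x] at hz2
      obtain ⟨φ, rfl⟩ := hz2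
      exact hx.2.2 φ.toRingHom
    refine (Eq.trans_le ?_ hb).trans (Nat.le_ceil _)
    rw [h_map_ℚ_minpoly, coeff_map, eq_intCast, Int.norm_cast_rat, Int.norm_eq_abs, Int.cast_abs]

/-- B8b: integrality can be checked at all primes. -/
theorem integral_of_intAt {L Ω : Type*} [Field L] [NumberField L] [Field Ω] [Algebra L Ω] {x : Ω}
    (h : ∀ v : HeightOneSpectrum (𝓞 L), Pool.Agent.Helper3.CL.IntAt v x) : IsIntegral ℤ x := by
  -- the minimal polynomial has integral coefficients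
  have hc : ∀ n, (minpoly L x).coeff n ∈ (algebraMap (𝓞 L) L).range := by
    intro n
    rw [RingHom.mem_range]
    refine HeightOneSpectrum.mem_integers_of_valuation_le_one (R := 𝓞 L) (K := L) _ fun v => ?_
    obtain ⟨p, hp, hpc, hpx⟩ := h v
    set O := (v.valuation L).valuationSubring
    letI : Algebra O Ω := ((algebraMap L Ω).comp (algebraMap O L)).toAlgebra
    haveI : IsScalarTower O L Ω := IsScalarTower.of_algebraMap_eq fun _ => rfl
    -- `p` comes from `O`
    have hpO : p ∈ lifts (algebraMap O L) := by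
      rw [lifts_iff_coeff_lifts]
      intro k
      exact ⟨⟨p.coeff k, hpc k⟩, rfl⟩
    obtain ⟨P, hPp, -, hPm⟩ := lifts_and_natDegree_eq_and_monic hpO hp
    have hint : IsIntegral O x := ⟨P, hPm, by
      rw [IsScalarTower.algebraMap_eq O L Ω, ← eval₂_map, hPp]
      exact hpx⟩
    have hmin := minpoly.isIntegrallyClosed_eq_field_fractions' L hint
    rw [hmin, coeff_map]
    exact ((minpoly O x).coeff n).2
  -- `x` is algebraic over `L`
  have hx : IsIntegral L x := by
    by_cases hne : Nonempty (HeightOneSpectrum (𝓞 L))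
    · obtain ⟨p, hp, -, hpx⟩ := h hne.some
      exact ⟨p, hp, hpx⟩
    · exfalso
      apply hne
      -- a number field has a place
      obtain ⟨I, hI⟩ := Ideal.exists_maximal (𝓞 L)
      refine ⟨⟨I, hI.isPrime, fun h0 => ?_⟩⟩
      exact RingOfIntegers.not_isField L (Ring.isField_iff_maximal_bot.mpr (h0 ▸ hI))
  have hlift : minpoly L x ∈ lifts (algebraMap (𝓞 L) L) := by
    rw [lifts_iff_coeff_lifts]
    exact fun n => hc n
  obtain ⟨P, hPp, -, hPm⟩ := lifts_and_natDegree_eq_and_monic hlift (minpoly.monic hx)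
  have hint : IsIntegral (𝓞 L) x := ⟨P, hPm, by
    rw [IsScalarTower.algebraMap_eq (𝓞 L) L Ω, ← eval₂_map, hPp]
    exact minpoly.aeval L x⟩
  exact isIntegral_trans (R := ℤ) (A := 𝓞 L) x hint

end Pool.Agent.Helper45.CL
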