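import Pool.Agent.Helper3.CL.Defs
import Pool.Agent.Helper16.CB.Val

/-!
# CB-ell, LC form: B9
-/

set_option autoImplicit false

namespace Pool.Agent.Helper45.CL

open NumberField Pool.Agent.Helper16.CB
open Pool.Agent.Helper3.CL (LC)

/-- B9a: `LC` does not see `l`-th powers. -/
theorem lc_mul {R : Type*} [CommRing R] [IsDedekindDomain R] {l : ℕ} (hl : 0 < l) {q : Ideal R}
    (hq : q.IsPrime) (hq0 : q ≠ ⊥) {a b η θ : R} (hη : η ≠ 0) (hθ : θ ≠ 0) (h : LC l q a b) :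
    LC l q (a * η ^ l) (b * θ ^ l) := by
  obtain ⟨α, β, h, hα, hβ, hm⟩ := h
  obtain ⟨s, hs⟩ := exists_val hq hη
  obtain ⟨t, ht⟩ := exists_val hq hθ
  have hα' : Val q (a * η ^ l) (α + l * s) := Val.mul hq hq0 hα (Val.pow hq hq0 hs l)
  have hβ' : Val q (b * θ ^ l) (β + l * t) := Val.mul hq hq0 hβ (Val.pow hq hq0 ht l)
  set w : R := (-1) ^ (α * t + β * s + l * s * t) * (a ^ t * η ^ (β + l * t) *
    (b ^ ((l - 1) * s) * θ ^ ((l - 1) * (α + l * s)))) with hw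
  obtain ⟨m, rfl⟩ : ∃ m, l = m + 1 := ⟨l - 1, by omega⟩
  have hm1 : m + 1 - 1 = m := by omega
  rw [hm1] at hm hw
  refine ⟨α + (m + 1) * s, β + (m + 1) * t, h * w, hα', hβ', ?_⟩
  rw [hm1]
  have hwm : w ∈ q ^ ((m + 1) * (α * t + β * s + (m + 1) * s * t)) := by
    rw [hw]
    refine Ideal.mul_mem_left _ _ ?_
    have h1 : a ^ t ∈ q ^ (α * t) := by
      rw [pow_mul]; exact Ideal.pow_mem_pow hα.1 t
    have h2 : η ^ (β + (m + 1) * t) ∈ q ^ (s * (β + (m + 1) * t)) := by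
      rw [pow_mul]; exact Ideal.pow_mem_pow hs.1 _
    have h3 : b ^ (m * s) ∈ q ^ (β * (m * s)) := by
      rw [pow_mul]; exact Ideal.pow_mem_pow hβ.1 _
    have h4 : θ ^ (m * (α + (m + 1) * s)) ∈ q ^ (t * (m * (α + (m + 1) * s))) := by
      rw [pow_mul q]; exact Ideal.pow_mem_pow ht.1 _
    have h5 := Ideal.mul_mem_mul (Ideal.mul_mem_mul h1 h2) (Ideal.mul_mem_mul h3 h4)
    rw [← pow_add, ← pow_add, ← pow_add] at h5
    refine Ideal.pow_le_pow_right (le_of_eq ?_) h5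
    ring
  have hkey : (-1 : R) ^ ((α + (m + 1) * s) * (β + (m + 1) * t)) *
      (a * η ^ (m + 1)) ^ (β + (m + 1) * t) *
      (b * θ ^ (m + 1)) ^ (m * (α + (m + 1) * s)) =
      ((-1) ^ (α * β) * a ^ β * b ^ (m * α)) * w ^ (m + 1) := by
    rw [hw]
    have hsign : (-1 : R) ^ ((α + (m + 1) * s) * (β + (m + 1) * t)) =
        (-1) ^ (α * β) * ((-1) ^ (α * t + β * s + (m + 1) * s * t)) ^ (m + 1) := by
      rw [← pow_mul, ← pow_add]
      congr 1
      ring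
    rw [hsign]
    ring
  rw [hkey, mul_pow h w, ← sub_mul]
  have h6 := Ideal.mul_mem_mul hm (Ideal.pow_mem_pow hwm (m + 1))
  rw [← pow_mul, ← pow_add] at h6
  refine Ideal.pow_le_pow_right (le_of_eq ?_) h6
  ring

/-- B9b -/
theorem lc_of_notMem {R : Type*} [CommRing R] {l : ℕ} {q : Ideal R} {a b : R} (ha : a ∉ q)
    (hb : b ∉ q) : LC l q a b := by
  refine ⟨0, 0, 1, val_zero_iff.mpr ha, val_zero_iff.mpr hb, ?_⟩
  simp

end Pool.Agent.Helper45.CL
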