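import Mathlib

/-!
# CB-ell: the determinant of a semilinear map
-/

set_option autoImplicit false

namespace Pool.Agent.Helper45.CL

open Finset

/-- a semilinear map `T` with `T ^ n = a`: the `k`-th power of `a` is a norm, `k` the dimension -/
theorem prod_of_semilinear {F E V : Type*} [Field F] [Field E] [Algebra F E] [AddCommGroup V]
    [Module E V] [FiniteDimensional E V] (σ : E ≃ₐ[F] E) (n : ℕ) (T : V → V)
    (hadd : ∀ x y, T (x + y) = T x + T y) (hsmul : ∀ (c : E) (x : V), T (c • x) = σ c • T x)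
    (a : E) (hT : ∀ x, T^[n] x = a • x) :
    ∃ y : E, ∏ i ∈ range n, (σ ^ i) y = a ^ Module.finrank E V := by
  classical
  set b := Module.finBasis E V
  set k := Module.finrank E V
  let Tm : V →+ V := AddMonoidHom.mk' T hadd
  have hTm : ∀ x, Tm x = T x := fun x => rfl
  set J : Matrix (Fin k) (Fin k) E := Matrix.of fun i j => b.repr (T (b j)) i
  have hJ : ∀ j, T (b j) = ∑ i, J i j • b i := fun j => (b.sum_repr (T (b j))).symm
  have hTsum : ∀ c : Fin k → E, T (∑ i, c i • b i) = ∑ h, (∑ i, J h i * σ (c i)) • b h := by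
    intro c
    rw [← hTm, map_sum]
    calc ∑ i, Tm (c i • b i) = ∑ i, ∑ h, (J h i * σ (c i)) • b h := by
          refine sum_congr rfl fun i _ => ?_
          rw [hTm, hsmul, hJ, smul_sum]
          refine sum_congr rfl fun h _ => ?_
          rw [smul_smul, mul_comm]
      _ = ∑ h, (∑ i, J h i * σ (c i)) • b h := by
          rw [sum_comm]
          exact sum_congr rfl fun h _ => (sum_smul ..).symm
  have key : ∀ m : ℕ, ∃ Jm : Matrix (Fin k) (Fin k) E,
      (∀ j, T^[m] (b j) = ∑ i, Jm i j • b i) ∧ Jm.det = ∏ i ∈ range m, (σ ^ i) J.det := by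
    intro m
    induction m with
    | zero =>
      refine ⟨1, fun j => ?_, by simp⟩
      simp [Matrix.one_apply]
    | succ m ih =>
      obtain ⟨Jm, h1, h2⟩ := ih
      refine ⟨J * σ.toRingHom.mapMatrix Jm, fun j => ?_, ?_⟩
      · rw [Function.iterate_succ_apply', h1 j, hTsum]
        rfl
      · rw [Matrix.det_mul, ← RingHom.map_det, h2, prod_range_succ', mul_comm]
        congr 1
        rw [map_prod]
        refine prod_congr rfl fun i _ => ?_
        rw [pow_succ' σ i]
        rfl
  obtain ⟨Jn, h1, h2⟩ := key n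
  refine ⟨J.det, h2.symm.trans ?_⟩
  have h3 : Jn = a • (1 : Matrix (Fin k) (Fin k) E) := by
    ext i j
    have h4 : b.repr (∑ i, Jn i j • b i) i = b.repr (a • b j) i := by rw [← h1 j, hT]
    rw [b.repr_sum_self] at h4
    rw [h4]
    simp [Matrix.one_apply, Finsupp.single_apply, eq_comm]
  rw [h3, Matrix.det_smul, Matrix.det_one, mul_one, Fintype.card_fin]

/-- a power prime to `n` which is a norm -/
theorem prod_of_pow {F E : Type*} [Field F] [Field E] [Algebra F E] (σ : E ≃ₐ[F] E) {n k : ℕ}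
    (hk : k.Coprime n) {a : F} (ha : a ≠ 0) {y : E}
    (hy : ∏ i ∈ range n, (σ ^ i) y = algebraMap F E a ^ k) :
    ∃ x : E, ∏ i ∈ range n, (σ ^ i) x = algebraMap F E a := by
  have ha' : algebraMap F E a ≠ 0 := by
    rwa [Ne, map_eq_zero_iff _ (algebraMap F E).injective]
  set u := Nat.gcdA k n
  set w := Nat.gcdB k n
  have huw : (k : ℤ) * u + n * w = 1 := by
    have := Nat.gcd_eq_gcd_ab k n
    rw [hk] at this
    simpa using this.symm
  refine ⟨y ^ u * algebraMap F E a ^ w, ?_⟩
  have h1 : ∀ i ∈ range n, (σ ^ i) (y ^ u * algebraMap F E a ^ w) =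
      ((σ ^ i) y) ^ u * algebraMap F E a ^ w := by
    intro i _
    rw [map_mul, map_zpow₀, map_zpow₀, AlgEquiv.commutes]
  rw [prod_congr rfl h1, prod_mul_distrib, prod_const, card_range, prod_zpow, hy,
    ← zpow_natCast, ← zpow_mul, ← zpow_natCast, ← zpow_mul, ← zpow_add₀ ha', mul_comm w, huw,
    zpow_one]

end Pool.Agent.Helper45.CL
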